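import Pool.Agent.W788.NW.Stm

/-!
# Comparison of the dynamics with the one which never reads a given site
-/

set_option autoImplicit false

namespace Pool.Agent.W67.NW

open Finset Pool.Agent.W788.NV Pool.Agent.W788.NW

/-! ## semigroups -/

section
variable {S ι : Type} [Fintype S] [DecidableEq S] [Fintype ι]

theorem sg_expand (h : MK) (r : ι → ℝ) (m : ι → S → S) (F : S → ℝ) (x : S) (t : ℝ) :
    sg r m t F x = ∑ y, F y * sg r m t (fun z => if z = y then 1 else 0) x := by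
  have e := h.lin S ι S r m F (fun y z => if z = y then 1 else 0) x t
  rw [← e]
  congr 1
  funext z
  simp

theorem sg_cont (h : MK) (r : ι → ℝ) (m : ι → S → S) (F : ℝ → S → ℝ)
    (hF : ∀ y, Continuous fun τ => F τ y) (x : S) : Continuous fun τ => sg r m τ (F τ) x := by
  have e : (fun τ => sg r m τ (F τ) x) =
      fun τ => ∑ y, F τ y * sg r m τ (fun z => if z = y then 1 else 0) x := by
    funext τ
    exact sg_expand h r m (F τ) x τ
  rw [e]
  refine continuous_finsetSum _ fun y _ => (hF y).mul ?_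
  exact continuous_iff_continuousAt.mpr fun t => (h.deriv S ι r m _ x t).continuousAt

theorem sg_smul (h : MK) (r : ι → ℝ) (m : ι → S → S) (c : ℝ) (F : S → ℝ) (x : S) (t : ℝ) :
    sg r m t (fun y => c * F y) x = c * sg r m t F x := by
  have e := h.lin S ι Unit r m (fun _ => c) (fun _ => F) x t
  simpa using e

end

/-! ## Gronwall -/

theorem gron_up {Φ Φ' : ℝ → ℝ} {C : ℝ} (hd : ∀ s, HasDerivAt Φ (Φ' s) s)
    (hb : ∀ s, 0 ≤ s → s ≤ 1 → Φ' s ≤ C * Φ s) : Φ 1 ≤ Real.exp C * Φ 0 := by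
  have hder : ∀ s, HasDerivAt (fun s => Real.exp (-C * s) * Φ s)
      (Real.exp (-C * s) * (-C) * Φ s + Real.exp (-C * s) * Φ' s) s := by
    intro s
    have h1 : HasDerivAt (fun s : ℝ => -C * s) (-C) s := by
      simpa using (hasDerivAt_id s).const_mul (-C)
    exact h1.exp.mul (hd s)
  have hanti : AntitoneOn (fun s => Real.exp (-C * s) * Φ s) (Set.Icc 0 1) := by
    apply antitoneOn_of_deriv_nonpos (convex_Icc 0 1)
    · exact fun s _ => (hder s).continuousAt.continuousWithinAt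
    · exact fun s _ => (hder s).differentiableAt.differentiableWithinAt
    · intro s hs
      rw [interior_Icc] at hs
      rw [(hder s).deriv]
      have h2 := hb s hs.1.le hs.2.le
      have h3 : Real.exp (-C * s) * (-C) * Φ s + Real.exp (-C * s) * Φ' s =
          Real.exp (-C * s) * (Φ' s - C * Φ s) := by ring
      rw [h3]
      exact mul_nonpos_of_nonneg_of_nonpos (Real.exp_pos _).le (by linarith)
  have h4 := hanti (Set.left_mem_Icc.mpr zero_le_one) (Set.right_mem_Icc.mpr zero_le_one)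
    zero_le_one
  simp only [mul_one, mul_zero, Real.exp_zero, one_mul] at h4
  have h5 := mul_le_mul_of_nonneg_left h4 (Real.exp_pos C).le
  rw [← mul_assoc, ← Real.exp_add, add_neg_cancel, Real.exp_zero, one_mul] at h5
  exact h5

theorem gron_lo {Φ Φ' : ℝ → ℝ} {C : ℝ} (hd : ∀ s, HasDerivAt Φ (Φ' s) s)
    (hb : ∀ s, 0 ≤ s → s ≤ 1 → -(C * Φ s) ≤ Φ' s) : Φ 0 ≤ Real.exp C * Φ 1 := by
  have hder : ∀ s, HasDerivAt (fun s => Real.exp (C * s) * Φ s)
      (Real.exp (C * s) * C * Φ s + Real.exp (C * s) * Φ' s) s := by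
    intro s
    have h1 : HasDerivAt (fun s : ℝ => C * s) C s := by
      simpa using (hasDerivAt_id s).const_mul C
    exact h1.exp.mul (hd s)
  have hmono : MonotoneOn (fun s => Real.exp (C * s) * Φ s) (Set.Icc 0 1) := by
    apply monotoneOn_of_deriv_nonneg (convex_Icc 0 1)
    · exact fun s _ => (hder s).continuousAt.continuousWithinAt
    · exact fun s _ => (hder s).differentiableAt.differentiableWithinAt
    · intro s hs
      rw [interior_Icc] at hs
      rw [(hder s).deriv]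
      have h2 := hb s hs.1.le hs.2.le
      have h3 : Real.exp (C * s) * C * Φ s + Real.exp (C * s) * Φ' s =
          Real.exp (C * s) * (Φ' s + C * Φ s) := by ring
      rw [h3]
      exact mul_nonneg (Real.exp_pos _).le (by linarith)
  have h4 := hmono (Set.left_mem_Icc.mpr zero_le_one) (Set.right_mem_Icc.mpr zero_le_one)
    zero_le_one
  simpa using h4

/-! ## rates -/

section
variable {V : Type} [Fintype V] [DecidableEq V]

open Classical in
/-- indicator of the neighbours of `v0` -/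
noncomputable def cf (G : SimpleGraph V) (v0 v : V) : ℝ := if G.Adj v0 v then 1 else 0

theorem sum_cf (G : SimpleGraph V) (v0 : V) : ∑ v, cf G v0 v = (dg G v0 : ℝ) := by
  unfold cf dg
  rw [Finset.sum_boole]

theorem cf_nonneg (G : SimpleGraph V) (v0 v : V) : 0 ≤ cf G v0 v := by
  unfold cf
  split_ifs <;> norm_num

theorem mr_nonneg (G : SimpleGraph V) (q : ℕ) (θ : ℝ) (h1 : θ ≤ 1) (p : V × V) :
    0 ≤ mrate G q θ (Sum.inr p : (V × Fin q) ⊕ (V × V)) := by
  unfold mrate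
  simp only
  split_ifs
  · exact div_nonneg (by linarith) (Nat.cast_nonneg _)
  · exact le_rfl

theorem mr_le (G : SimpleGraph V) (q : ℕ) (θ : ℝ) (h0 : 0 ≤ θ) (hd : ∀ v, 1 ≤ dg G v)
    (v v0 : V) : mrate G q θ (Sum.inr (v, v0) : (V × Fin q) ⊕ (V × V)) ≤ cf G v0 v := by
  unfold mrate cf
  simp only
  have hd' : (1 : ℝ) ≤ dg G v := by exact_mod_cast hd v
  by_cases hA : G.Adj v v0
  · rw [if_pos hA, if_pos hA.symm, div_le_one (by linarith)]
    linarith
  · rw [if_neg hA, if_neg (fun h => hA h.symm)]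

/-- the part of the rates which belongs to the reads of `v0` -/
noncomputable def rho (G : SimpleGraph V) (q : ℕ) (θ : ℝ) (v0 : V) :
    (V × Fin q) ⊕ (V × V) → ℝ
  | .inl _ => 0
  | .inr p => if p.2 = v0 then mrate G q θ (Sum.inr p) else 0

theorem gf_rho (G : SimpleGraph V) (q : ℕ) (θ : ℝ) (v0 : V) (b : Mp V q → ℝ) (Φ : Mp V q) :
    gf (rho G q θ v0) (mR (V := V) (q := q)) b Φ =
      ∑ v, mrate G q θ (Sum.inr (v, v0) : (V × Fin q) ⊕ (V × V)) *
        (b (mR (Sum.inr (v, v0)) Φ) - b Φ) := by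
  unfold gf
  rw [Fintype.sum_sum_type]
  have e1 : ∑ p : V × Fin q, rho G q θ v0 (Sum.inl p) * (b (mR (Sum.inl p) Φ) - b Φ) = 0 := by
    apply Finset.sum_eq_zero
    intro p _
    simp [rho]
  rw [e1, zero_add, Fintype.sum_prod_type]
  refine Finset.sum_congr rfl fun v _ => ?_
  rw [Finset.sum_eq_single v0]
  · simp [rho]
  · intro w _ hw
    simp [rho, hw]
  · intro h
    exact absurd (Finset.mem_univ v0) h

end

theorem fea_ (h : MK) (h1 : S_DUH) (h2 : S_KIL) (h3 : S_EVG) (h4 : S_DR) (h5 : S_POS)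
    (h6 : S_TOT) : S_FEA := by
  intro V _ _ G q θ Δ η S ω hy k z v0 hk
  have hθ0 : 0 < θ := hy.t0
  have hθ1 : θ < 1 := hy.t1
  have hq : 2 ≤ q := hy.q2
  set r0 : (V × Fin q) ⊕ (V × V) → ℝ := rv G q θ v0 0 with hr0
  set ρ : (V × Fin q) ⊕ (V × V) → ℝ := rho G q θ v0 with hρ
  -- the rates
  have hR1 : (fun e => r0 e + 1 * ρ e) = mrate G q θ := by
    funext e
    rcases e with p | p
    · simp [hr0, hρ, rho, rv]
    · by_cases hp : p.2 = v0
      · simp [hr0, hρ, rho, rv, hp]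
      · simp [hr0, hρ, rho, rv, hp]
  have hR0 : (fun e => r0 e + 0 * ρ e) = r0 := by
    funext e
    simp
  have hinl : ∀ s p, r0 (Sum.inl p) + s * ρ (Sum.inl p) = θ / q := by
    intro s p
    simp [hr0, hρ, rho, rv, mrate]
  have hinr : ∀ s : ℝ, 0 ≤ s → s ≤ 1 → ∀ p, 0 ≤ r0 (Sum.inr p) + s * ρ (Sum.inr p) ∧
      r0 (Sum.inr p) + s * ρ (Sum.inr p) ≤
        mrate G q θ (Sum.inr p : (V × Fin q) ⊕ (V × V)) := by
    intro s hs0 hs1 p
    have hm := mr_nonneg G q θ hθ1.le p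
    by_cases hp : p.2 = v0
    · have e : r0 (Sum.inr p) + s * ρ (Sum.inr p) =
          s * mrate G q θ (Sum.inr p : (V × Fin q) ⊕ (V × V)) := by
        simp [hr0, hρ, rho, rv, hp]
      rw [e]
      refine ⟨mul_nonneg hs0 hm, ?_⟩
      calc s * mrate G q θ (Sum.inr p : (V × Fin q) ⊕ (V × V))
          ≤ 1 * mrate G q θ (Sum.inr p : (V × Fin q) ⊕ (V × V)) :=
            mul_le_mul_of_nonneg_right hs1 hm
        _ = _ := one_mul _
    · have e : r0 (Sum.inr p) + s * ρ (Sum.inr p) =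
          mrate G q θ (Sum.inr p : (V × Fin q) ⊕ (V × V)) := by
        simp [hr0, hρ, rho, rv, hp]
      rw [e]
      exact ⟨hm, le_rfl⟩
  have hRnn : ∀ s : ℝ, 0 ≤ s → s ≤ 1 → ∀ e, 0 ≤ r0 e + s * ρ e := by
    intro s hs0 hs1 e
    rcases e with p | p
    · rw [hinl]
      positivity
    · exact (hinr s hs0 hs1 p).1
  -- the function
  set Φ : ℝ → ℝ := fun s => sg (fun e => r0 e + s * ρ e) (mR (V := V) (q := q)) 1 (hit k z) id
    with hΦ
  set Φ' : ℝ → ℝ := fun s => ∫ τ in (0 : ℝ)..1, sg (fun e => r0 e + s * ρ e)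
    (mR (V := V) (q := q)) τ (gf ρ (mR (V := V) (q := q)) (sg (fun e => r0 e + s * ρ e)
      (mR (V := V) (q := q)) (1 - τ) (hit k z))) id with hΦ'
  have hder : ∀ s, HasDerivAt Φ (Φ' s) s := fun s =>
    h1 (Mp V q) ((V × Fin q) ⊕ (V × V)) r0 ρ (mR (V := V) (q := q)) (hit k z) id 1 s
  -- bounds for the generator
  have hgf : ∀ (b : Mp V q → ℝ) (k' : (V → Fin q) → ℝ), (∀ x, 0 ≤ k' x) →
      (∀ Ψ, b Ψ = hit k' z Ψ) → ∀ Ψ : Mp V q,
      gf ρ (mR (V := V) (q := q)) b Ψ ≤ ∑ v, cf G v0 v *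
        (if dep Ψ v = ∅ then 0 else ∑ c : Fin q, b (mR (Sum.inl (v, c)) Ψ)) ∧
      -(Δ : ℝ) * b Ψ ≤ gf ρ (mR (V := V) (q := q)) b Ψ := by
    intro b k' hk' hb Ψ
    rw [hρ, gf_rho]
    have hb0 : ∀ Ψ, 0 ≤ b Ψ := by
      intro Ψ
      rw [hb]
      exact (h5 V q k' z Ψ v0 (fun x => x v0) hk').1
    constructor
    · refine Finset.sum_le_sum fun v _ => ?_
      have hm0 := mr_nonneg G q θ hθ1.le (v, v0)
      have hm1 := mr_le G q θ hθ0.le hy.d1 v v0
      split_ifs with hdep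
      · have e : mR (Sum.inr (v, v0)) Ψ = Ψ := by
          funext x
          exact (h4 V q Ψ v).1 hdep x (x v0)
        rw [e]
        simp
      · have hU : b (mR (Sum.inr (v, v0)) Ψ) ≤ ∑ c : Fin q, b (mR (Sum.inl (v, c)) Ψ) := by
          simp only [hb]
          exact (h5 V q k' z Ψ v (fun x => x v0) hk').2.1
        have hU0 : 0 ≤ ∑ c : Fin q, b (mR (Sum.inl (v, c)) Ψ) :=
          Finset.sum_nonneg fun c _ => hb0 _
        calc mrate G q θ (Sum.inr (v, v0) : (V × Fin q) ⊕ (V × V)) *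
              (b (mR (Sum.inr (v, v0)) Ψ) - b Ψ)
            ≤ mrate G q θ (Sum.inr (v, v0) : (V × Fin q) ⊕ (V × V)) *
              ∑ c : Fin q, b (mR (Sum.inl (v, c)) Ψ) :=
              mul_le_mul_of_nonneg_left (by have := hb0 Ψ; linarith) hm0
          _ ≤ _ := mul_le_mul_of_nonneg_right hm1 hU0
    · have hsum : ∑ v, cf G v0 v * (-(b Ψ)) ≤ ∑ v,
          mrate G q θ (Sum.inr (v, v0) : (V × Fin q) ⊕ (V × V)) *
            (b (mR (Sum.inr (v, v0)) Ψ) - b Ψ) := by
        refine Finset.sum_le_sum fun v _ => ?_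
        have hm0 := mr_nonneg G q θ hθ1.le (v, v0)
        have hm1 := mr_le G q θ hθ0.le hy.d1 v v0
        calc cf G v0 v * (-(b Ψ)) = -(cf G v0 v * b Ψ) := by ring
          _ ≤ -(mrate G q θ (Sum.inr (v, v0) : (V × Fin q) ⊕ (V × V)) * b Ψ) :=
            neg_le_neg (mul_le_mul_of_nonneg_right hm1 (hb0 Ψ))
          _ = mrate G q θ (Sum.inr (v, v0) : (V × Fin q) ⊕ (V × V)) * (0 - b Ψ) := by ring
          _ ≤ _ := mul_le_mul_of_nonneg_left (by have := hb0 (mR (Sum.inr (v, v0)) Ψ); linarith)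
            hm0
      refine le_trans ?_ hsum
      rw [← Finset.sum_mul, sum_cf]
      have hD : (dg G v0 : ℝ) ≤ Δ := by exact_mod_cast hy.dD v0
      have := mul_le_mul_of_nonneg_right hD (hb0 Ψ)
      linarith
  -- the terminal functionals
  have hbk : ∀ s : ℝ, 0 ≤ s → s ≤ 1 → ∀ τ : ℝ, 0 ≤ τ → τ ≤ 1 →
      ∃ k' : (V → Fin q) → ℝ, (∀ x, 0 ≤ k' x) ∧ ∀ Ψ : Mp V q,
        sg (fun e => r0 e + s * ρ e) (mR (V := V) (q := q)) (1 - τ) (hit k z) Ψ =
          hit k' z Ψ := by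
    intro s hs0 hs1 τ _ hτ1
    obtain ⟨k', hk'0, hk'⟩ := (h3 V q (fun e => r0 e + s * ρ e) (1 - τ)).2.2 k
      (hRnn s hs0 hs1) (by linarith) hk
    exact ⟨k', hk'0, fun Ψ => hk' z Ψ⟩
  -- continuity
  have hbc : ∀ (s : ℝ) (Ψ : Mp V q), Continuous fun τ : ℝ =>
      sg (fun e => r0 e + s * ρ e) (mR (V := V) (q := q)) (1 - τ) (hit k z) Ψ := by
    intro s Ψ
    have e : Continuous fun t : ℝ =>
        sg (fun e => r0 e + s * ρ e) (mR (V := V) (q := q)) t (hit k z) Ψ :=
      sg_cont h _ _ (fun _ => hit k z) (fun _ => continuous_const) Ψ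
    exact e.comp (continuous_const.sub continuous_id)
  have hIc : ∀ s : ℝ, Continuous fun τ : ℝ => sg (fun e => r0 e + s * ρ e)
      (mR (V := V) (q := q)) τ (gf ρ (mR (V := V) (q := q)) (sg (fun e => r0 e + s * ρ e)
        (mR (V := V) (q := q)) (1 - τ) (hit k z))) id := by
    intro s
    refine sg_cont h _ _ (fun τ => gf ρ (mR (V := V) (q := q)) (sg (fun e => r0 e + s * ρ e)
        (mR (V := V) (q := q)) (1 - τ) (hit k z))) (fun Ψ => ?_) id
    unfold gf
    exact continuous_finsetSum _ fun e _ => continuous_const.mul ((hbc s _).sub (hbc s _))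
  have hUc : ∀ (s : ℝ) (v : V), Continuous fun τ : ℝ => sg (fun e => r0 e + s * ρ e)
      (mR (V := V) (q := q)) τ (fun Ψ => if dep Ψ v = ∅ then 0 else
        ∑ c : Fin q, sg (fun e => r0 e + s * ρ e) (mR (V := V) (q := q)) (1 - τ) (hit k z)
          (mR (Sum.inl (v, c)) Ψ)) id := by
    intro s v
    refine sg_cont h _ _ (fun τ Ψ => if dep Ψ v = ∅ then 0 else
        ∑ c : Fin q, sg (fun e => r0 e + s * ρ e) (mR (V := V) (q := q)) (1 - τ) (hit k z)
          (mR (Sum.inl (v, c)) Ψ)) (fun Ψ => ?_) id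
    by_cases hdep : dep Ψ v = ∅
    · simp only [hdep, if_true]
      exact continuous_const
    · simp only [hdep, if_false]
      exact continuous_finsetSum _ fun c _ => hbc s _
  have hΦ0 : ∀ s : ℝ, 0 ≤ s → s ≤ 1 → 0 ≤ Φ s := by
    intro s hs0 hs1
    have e := h.mono (Mp V q) ((V × Fin q) ⊕ (V × V)) (fun e => r0 e + s * ρ e)
      (mR (V := V) (q := q)) (fun _ => 0) (hit k z) id 1 (hRnn s hs0 hs1) zero_le_one
      (fun Ψ => (h5 V q k z Ψ v0 (fun x => x v0) hk).1)
    rw [h.cst] at e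
    exact e
  have hup : ∀ s : ℝ, 0 ≤ s → s ≤ 1 → Φ' s ≤ (Δ * (2 * q / θ * (1 + η) * S)) * Φ s := by
    intro s hs0 hs1
    have step1 : Φ' s ≤ ∫ τ in (0 : ℝ)..1, ∑ v, cf G v0 v * sg (fun e => r0 e + s * ρ e)
        (mR (V := V) (q := q)) τ (fun Ψ => if dep Ψ v = ∅ then 0 else
          ∑ c : Fin q, sg (fun e => r0 e + s * ρ e) (mR (V := V) (q := q)) (1 - τ) (hit k z)
            (mR (Sum.inl (v, c)) Ψ)) id := by
      refine intervalIntegral.integral_mono_on zero_le_one ((hIc s).intervalIntegrable _ _)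
        ((continuous_finsetSum _ fun v _ => continuous_const.mul (hUc s v)).intervalIntegrable
          _ _) ?_
      intro τ hτ
      obtain ⟨k', hk'0, hk'⟩ := hbk s hs0 hs1 τ hτ.1 hτ.2
      rw [← h.lin (Mp V q) ((V × Fin q) ⊕ (V × V)) V (fun e => r0 e + s * ρ e)
        (mR (V := V) (q := q)) (cf G v0) (fun v Ψ => if dep Ψ v = ∅ then 0 else
          ∑ c : Fin q, sg (fun e => r0 e + s * ρ e) (mR (V := V) (q := q)) (1 - τ) (hit k z)
            (mR (Sum.inl (v, c)) Ψ)) id τ]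
      exact h.mono _ _ _ _ _ _ _ _ (hRnn s hs0 hs1) hτ.1
        (fun Ψ => (hgf _ k' hk'0 hk' Ψ).1)
    refine step1.trans ?_
    have hcUc : ∀ v : V, Continuous fun τ : ℝ => cf G v0 v * sg (fun e => r0 e + s * ρ e)
        (mR (V := V) (q := q)) τ (fun Ψ => if dep Ψ v = ∅ then 0 else
          ∑ c : Fin q, sg (fun e => r0 e + s * ρ e) (mR (V := V) (q := q)) (1 - τ) (hit k z)
            (mR (Sum.inl (v, c)) Ψ)) id := fun v => continuous_const.mul (hUc s v)
    rw [intervalIntegral.integral_finsetSum (fun v _ => (hcUc v).intervalIntegrable _ _)]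
    simp only [intervalIntegral.integral_const_mul]
    have step2 : ∀ v : V, cf G v0 v * ∫ τ in (0 : ℝ)..1, sg (fun e => r0 e + s * ρ e)
        (mR (V := V) (q := q)) τ (fun Ψ => if dep Ψ v = ∅ then 0 else
          ∑ c : Fin q, sg (fun e => r0 e + s * ρ e) (mR (V := V) (q := q)) (1 - τ) (hit k z)
            (mR (Sum.inl (v, c)) Ψ)) id ≤ cf G v0 v * (2 * q / θ * (1 + η) * S * Φ s) := by
      intro v
      by_cases hA : G.Adj v0 v
      · refine mul_le_mul_of_nonneg_left ?_ (cf_nonneg G v0 v)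
        exact h2 V G q θ Δ η S ω hy (fun e => r0 e + s * ρ e) (hinl s) (hinr s hs0 hs1) k z v0 v
          hk hA
      · have : cf G v0 v = 0 := by
          unfold cf
          rw [if_neg hA]
        rw [this, zero_mul, zero_mul]
    refine (Finset.sum_le_sum fun v _ => step2 v).trans ?_
    rw [← Finset.sum_mul, sum_cf]
    have hD : (dg G v0 : ℝ) ≤ Δ := by exact_mod_cast hy.dD v0
    have hnn : 0 ≤ 2 * q / θ * (1 + η) * S * Φ s := by
      have hη : 0 ≤ η := hy.wt.eta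
      have hS : 0 ≤ S := zero_le_one.trans hy.S1
      have := hΦ0 s hs0 hs1
      positivity
    have := mul_le_mul_of_nonneg_right hD hnn
    linarith
  have hlo : ∀ s : ℝ, 0 ≤ s → s ≤ 1 → -((Δ : ℝ) * Φ s) ≤ Φ' s := by
    intro s hs0 hs1
    have step1 : (∫ _τ in (0 : ℝ)..1, -((Δ : ℝ) * Φ s)) ≤ Φ' s := by
      refine intervalIntegral.integral_mono_on zero_le_one
        (continuous_const.intervalIntegrable _ _) ((hIc s).intervalIntegrable _ _) ?_
      intro τ hτ
      obtain ⟨k', hk'0, hk'⟩ := hbk s hs0 hs1 τ hτ.1 hτ.2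
      have e1 : -((Δ : ℝ) * Φ s) = sg (fun e => r0 e + s * ρ e) (mR (V := V) (q := q)) τ
          (fun Ψ => -(Δ : ℝ) * sg (fun e => r0 e + s * ρ e) (mR (V := V) (q := q)) (1 - τ)
            (hit k z) Ψ) id := by
        rw [sg_smul h, ← h.add]
        have e2 : τ + (1 - τ) = 1 := by ring
        rw [e2]
        simp only [hΦ]
        ring
      rw [e1]
      exact h.mono _ _ _ _ _ _ _ _ (hRnn s hs0 hs1) hτ.1
        (fun Ψ => (hgf _ k' hk'0 hk' Ψ).2)
    simpa using step1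
  have hup1 := gron_up hder hup
  have hlo1 := gron_lo hder hlo
  simp only [hΦ, hR1, hR0] at hup1 hlo1
  exact ⟨hup1, hlo1⟩

end Pool.Agent.W67.NW
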